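import Mathlib
import Pool.Agent.JordanPI.Special

set_option autoImplicit false

open Pool.Agent.JordanPI

namespace Pool.Agent.Results.MP_e0d88d_al.SpecialJordanTwoGen

universe u v w

/-- The product `a ∘ b = (a b + b a) / 2` of the Jordan algebra `B⁺`, where `B` is an associative
algebra over `F`. -/
def jmul (F : Type u) [Field F] {B : Type v} [Ring B] [Algebra F B] (a b : B) : B :=
  (2⁻¹ : F) • (a * b + b * a)

/-- The subalgebra of `B⁺` generated by the set `s`: the smallest subspace of `B` that contains `s`
and is closed under the product `a ∘ b`. -/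
def jordanGen (F : Type u) [Field F] {B : Type v} [Ring B] [Algebra F B] (s : Set B) :
    Submodule F B :=
  sInf {V | s ⊆ V ∧ ∀ a ∈ V, ∀ b ∈ V, jmul F a b ∈ V}

/-- The special Jordan algebra `J ⊆ B⁺` is PI: there is a nonzero element `f` of the free special
Jordan algebra `SJ(x_1, …, x_n)` (the subalgebra generated by the letters in the Jordan algebra of
the free associative algebra) with `f(a_1, …, a_n) = 0` for all `a_i ∈ J`. -/
def IsJordanPI {F : Type u} [Field F] {B : Type v} [Ring B] [Algebra F B] (J : Submodule F B) :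
    Prop :=
  ∃ (n : ℕ) (f : FreeAlgebra F (Fin n)), f ∈ jordanGen F (Set.range (FreeAlgebra.ι F)) ∧ f ≠ 0 ∧
    ∀ a : Fin n → B, (∀ i, a i ∈ J) → FreeAlgebra.lift F a f = 0

/-- The Jordan algebra `J ⊆ B⁺` embeds into the Jordan algebra `J' ⊆ C⁺`: there is a linear map that
is injective on `J`, maps `J` into `J'` and respects the products of elements of `J`. -/
def JordanEmbeds {F : Type u} [Field F] {B : Type v} [Ring B] [Algebra F B] {C : Type w} [Ring C]
    [Algebra F C] (J : Submodule F B) (J' : Submodule F C) : Prop :=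
  ∃ ψ : B →ₗ[F] C, Set.InjOn ψ (J : Set B) ∧ (∀ a ∈ J, ψ a ∈ J') ∧
    ∀ a ∈ J, ∀ b ∈ J, ψ (jmul F a b) = jmul F (ψ a) (ψ b)

theorem jordanGen_eq {F : Type u} [Field F] (h2 : (2 : F) ≠ 0) {B : Type v} [Ring B] [Algebra F B]
    (s : Set B) : jordanGen F s = jclosure F s := by
  rw [jordanGen, jclosure]
  congr 1
  ext V
  constructor
  · rintro ⟨h, h'⟩
    refine ⟨h, fun a ha b hb => ?_⟩
    have := V.smul_mem (2 : F) (h' a ha b hb)
    rwa [jmul, smul_smul, mul_inv_cancel₀ h2, one_smul] at this
  · rintro ⟨h, h'⟩
    exact ⟨h, fun a ha b hb => V.smul_mem _ (h' a ha b hb)⟩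

/-- Let `F` be a field with `2 ≠ 0`, `B` an associative `F`-algebra and `J` the subalgebra of `B⁺`
generated by finitely many elements. If the special Jordan algebra `J` is PI, then it embeds into a
special Jordan PI algebra generated by two elements, namely by two matrices over `B`. -/
theorem result (F : Type u) [Field F] (h2 : (2 : F) ≠ 0) (B : Type v) [Ring B] [Algebra F B]
    (k : ℕ) (x : Fin k → B) (hPI : IsJordanPI (jordanGen F (Set.range x))) :
    ∃ (m : ℕ) (X Y : Matrix (Fin m) (Fin m) B),
      IsJordanPI (jordanGen F {X, Y}) ∧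
      JordanEmbeds (jordanGen F (Set.range x)) (jordanGen F {X, Y}) := by
  classical
  have hident : ∃ d, HasIdent (jclosure F (Set.range x)) d := by
    obtain ⟨n, f, _, hf0, hf⟩ := hPI
    rw [jordanGen_eq h2] at hf
    exact exists_hasIdent hf0 hf
  obtain ⟨d, hd⟩ := hident
  obtain ⟨N, be, hne, hbe⟩ := exists_envelope_identity (x := x) h2
    (isSys_jclosure h2 (Set.range x)) hd (Fin (k + 2))
  set S : Subalgebra F (Matrix (Fin (k + 2)) (Fin (k + 2)) B) :=
    matSub (Algebra.adjoin F (Set.range x)) (Fin (k + 2)) with hS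
  obtain ⟨h, hh, hh0, hhval⟩ := exists_jordan_identity h2 S be hne
    (fun b hb => hbe b (fun t i j => hb t i j))
  refine ⟨k + 2, xM B k, yM x, ?_, ?_⟩
  · refine ⟨2, h, (jordanGen_eq h2 _).ge hh, hh0, ?_⟩
    intro a ha
    refine hhval a fun i => ?_
    have hle : jordanGen F {xM B k, yM x} ≤ Subalgebra.toSubmodule S := by
      rw [jordanGen_eq h2]
      refine jclosure_le ?_ ?_
      · intro m hm
        rcases hm with rfl | rfl
        · intro i j
          simp only [xM, Matrix.of_apply]
          split_ifs
          · exact Subalgebra.one_mem _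
          · exact Subalgebra.zero_mem _
        · intro i j
          simp only [yM, Matrix.of_apply]
          split_ifs
          · refine Fin.cases ?_ (fun i => ?_) i
            · rw [bvec_zero]; exact Subalgebra.zero_mem _
            · refine Fin.lastCases ?_ (fun i => ?_) i
              · rw [Fin.succ_last, bvec_last]; exact Subalgebra.one_mem _
              · rw [bvec_mid]; exact Algebra.subset_adjoin ⟨i, rfl⟩
          · exact Subalgebra.zero_mem _
      · intro u hu v hv
        exact S.add_mem (S.mul_mem hu hv) (S.mul_mem hv hu)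
    exact hle (ha i)
  · refine ⟨{ toFun := psi x, map_add' := psi_add x, map_smul' := psi_smul x }, ?_, ?_, ?_⟩
    · intro a _ b _ hab
      exact psi_injective x hab
    · intro a ha
      exact (jordanGen_eq h2 {xM B k, yM x}).ge
        (psi_mem h2 x ((jordanGen_eq h2 (Set.range x)).le ha))
    · intro a _ b _
      change psi x (jmul F a b) = jmul F (psi x a) (psi x b)
      rw [jmul, jmul, psi_smul, psi_add, psi_mul, psi_mul]

end Pool.Agent.Results.MP_e0d88d_al.SpecialJordanTwoGen
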